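import Mathlib
import Pool.Agent.P.MP_d1f122_gt.Main

/-! Local rigidity of the linear actions of `SL(2, ℤ[√2])` on the four-torus. -/

namespace Pool.Agent.Results.MP_d1f122_gt.LocalRigidity

open Pool.Agent.P.MP_d1f122_gt Filter

theorem result (ρ : Gam →* GL (Fin 4) ℤ) (hρ : IsRational ρ) (hi : IsIrreducible ρ)
    (S : Finset Gam) (hS : Subgroup.closure (S : Set Gam) = ⊤) :
    ∃ η : ℝ, 0 < η ∧ ∀ α : Gam →* Equiv.Perm T, (∀ γ, IsSmooth (α γ)) →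
      (∀ s ∈ S, C1Close (α s) (ρ s : Matrix (Fin 4) (Fin 4) ℤ) η) →
      ∃ h : T ≃ T, IsSmooth h ∧ IsSmooth h.symm ∧
        ∀ γ x, h (α γ x) = linT (ρ γ : Matrix (Fin 4) (Fin 4) ℤ) (h x) := by
  by_contra hn
  push Not at hn
  choose α h1 h2 h3 using fun n : ℕ => hn (1 / ((n : ℝ) + 1)) (by positivity)
  obtain ⟨n, h, h4, h5, h6⟩ := (main_filter hρ hi hS (𝓕 := atTop) h1 fun s hs η hη => by
    filter_upwards [tendsto_one_div_add_atTop_nhds_zero_nat.eventually (ge_mem_nhds hη)] with n hn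
    obtain ⟨F, a1, a2, a3⟩ := h2 n s hs
    exact ⟨F, a1, a2, fun x => ⟨(a3 x).1.trans hn, (a3 x).2.trans hn⟩⟩).exists
  obtain ⟨γ, x, h7⟩ := h3 n h h4 h5
  exact h7 (h6 γ x)

end Pool.Agent.Results.MP_d1f122_gt.LocalRigidity
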